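import Mathlib
import Pool.Agent.H2.SignedDefs
import Pool.Agent.H2.RhoDefs
import Pool.Agent.H2.RhoLit

open Pool.Agent.H2.Signed in
theorem Pool.Agent.Results.MP_2c5934_co.Literal.result :
    ¬ ∀ p r h m δ k c : ℕ, p.Prime → Odd p → 2 ≤ r → 2 ≤ h → h ≤ p - 1 → 2 ≤ m → m ≤ p ^ r →
      (δ = if h ∣ p - 1 then 0 else 1) →
      IsGreatest {k : ℕ | p ^ k + δ ≤ h * m - h + 1} k →
      IsGreatest {c : ℕ | (h * c + 1) * p ^ k + δ ≤ h * m - h + 1} c →
      (c + 1) * p ^ k < m →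
      rho (Fin r → ZMod p) m h < rhoPM (Fin r → ZMod p) m h := fun H =>
  lit (H 5 2 3 2 1 0 0 (by norm_num) (by decide) le_rfl (by omega) (by omega) le_rfl (by omega)
    (by decide) ⟨by simp, fun k hk => by
      by_contra e
      have : 5 ^ 1 ≤ 5 ^ k := Nat.pow_le_pow_right (by omega) (by omega)
      simp only [Set.mem_setOf_eq] at hk
      omega⟩ ⟨by simp, fun c hc => by simp only [Set.mem_setOf_eq] at hc; omega⟩ (by omega))
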