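import Mathlib
import Pool.Agent.H2.SignedDefs
import Pool.Agent.H2.RhoDefs
import Pool.Agent.H2.RhoProof

open Pool.Agent.H2.Signed in
theorem Pool.Agent.Results.MP_2c5934_co.Strict.result (p r h m δ k c : ℕ) (hp : p.Prime)
    (hodd : Odd p) (h2 : 2 ≤ h) (hh : h ≤ p - 1) (hm : 2 ≤ m) (hm' : m ≤ p ^ r)
    (hδ : δ = if h ∣ p - 1 then 0 else 1)
    (hk : IsGreatest {k : ℕ | p ^ k + δ ≤ h * m - h + 1} k)
    (hc : IsGreatest {c : ℕ | (h * c + 1) * p ^ k ≤ h * m - h + 1} c)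
    (hmc : (c + 1) * p ^ k < m) :
    rho (Fin r → ZMod p) m h < rhoPM (Fin r → ZMod p) m h :=
  main p r h m δ k c hp hodd h2 hh hm hm' hδ hk hc hmc
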